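import Pool.Agent.helper69.SN.SpecB

/-!
# Project sn (MP_d2d7b9), row mMOB: Hessians of mollifications are averages
-/

open scoped Pointwise ContDiff
open MeasureTheory Set Filter Topology

set_option linter.unusedVariables false

namespace Pool.Agent.helper21.SN

open Pool.Agent.helper83.SC Pool.Agent.helper69.SN

theorem normed_zero_of {m : ℕ} (φ : ContDiffBump (0 : E m)) {t : E m} (ht : ¬ ‖t‖ ≤ φ.rOut) :
    φ.normed volume t = 0 := by
  have h1 : t ∉ Function.support (φ.normed volume) := by
    rw [ContDiffBump.support_normed_eq, Metric.mem_ball, dist_zero_right]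
    exact fun h => ht h.le
  exact Function.notMem_support.1 h1

theorem mol_integrable {m : ℕ} (φ : ContDiffBump (0 : E m)) {F : Type*} [NormedAddCommGroup F]
    [NormedSpace ℝ F] {g : E m → F} (hg : Continuous g) :
    Integrable (fun t => φ.normed volume t • g t) := by
  refine Continuous.integrable_of_hasCompactSupport ?_ ?_
  · exact φ.continuous_normed.smul hg
  · exact φ.hasCompactSupport_normed.smul_right

theorem mol_hasFDerivAt {m : ℕ} (φ : ContDiffBump (0 : E m)) {f : E m → ℝ} (hf : ContDiff ℝ ∞ f)
    (x : E m) :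
    HasFDerivAt (mol φ f) (∫ t, φ.normed volume t • fderiv ℝ f (x - t)) x := by
  have hc : Continuous (fderiv ℝ f) := hf.continuous_fderiv (by simp)
  have hd : Differentiable ℝ f := hf.differentiable (by simp)
  obtain ⟨C, hC⟩ : ∃ C : ℝ, ∀ y ∈ Metric.closedBall x (φ.rOut + 1), ‖fderiv ℝ f y‖ ≤ C := by
    obtain ⟨C, hC⟩ := (isCompact_closedBall x (φ.rOut + 1)).exists_bound_of_continuousOn
      hc.continuousOn
    exact ⟨C, hC⟩
  refine hasFDerivAt_integral_of_dominated_of_fderiv_le (μ := volume)
    (F := fun x t => φ.normed volume t * f (x - t))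
    (F' := fun x t => φ.normed volume t • fderiv ℝ f (x - t))
    (bound := fun t => φ.normed volume t * C)
    (s := Metric.ball x 1) (Metric.ball_mem_nhds x one_pos) ?_ ?_ ?_ ?_ ?_ ?_
  · refine Filter.Eventually.of_forall fun y => ?_
    exact (mol_integrable φ (hf.continuous.comp (continuous_const.sub continuous_id))
      |>.aestronglyMeasurable)
  · exact mol_integrable φ (hf.continuous.comp (continuous_const.sub continuous_id))
  · exact (mol_integrable φ (hc.comp (continuous_const.sub continuous_id))).aestronglyMeasurable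
  · refine Filter.Eventually.of_forall fun t y hy => ?_
    rw [norm_smul, Real.norm_eq_abs, abs_of_nonneg (φ.nonneg_normed t)]
    by_cases ht : ‖t‖ ≤ φ.rOut
    · refine mul_le_mul_of_nonneg_left (hC _ ?_) (φ.nonneg_normed t)
      rw [Metric.mem_closedBall, dist_eq_norm]
      have h1 : y - t - x = (y - x) - t := by abel
      rw [h1]
      rw [Metric.mem_ball, dist_eq_norm] at hy
      refine (norm_sub_le _ _).trans ?_
      linarith
    · rw [normed_zero_of φ ht, zero_mul, zero_mul]
  · exact (mol_integrable φ (g := fun _ => C) continuous_const)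
  · refine Filter.Eventually.of_forall fun t y hy => ?_
    have h1 : HasFDerivAt (fun y => f (y - t)) (fderiv ℝ f (y - t)) y := by
      have h2 := (hd (y - t)).hasFDerivAt
      have h3 : HasFDerivAt (fun y : E m => y - t) (ContinuousLinearMap.id ℝ (E m)) y :=
        (hasFDerivAt_id y).sub_const t
      exact h2.comp y h3
    exact h1.const_mul (φ.normed volume t)

theorem pd_mol {m : ℕ} (φ : ContDiffBump (0 : E m)) {f : E m → ℝ} (hf : ContDiff ℝ ∞ f)
    (j : Fin m) : pd j (mol φ f) = mol φ (pd j f) := by
  have hc : Continuous (fderiv ℝ f) := hf.continuous_fderiv (by simp)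
  funext x
  have h1 : pd j (mol φ f) x = (∫ t, φ.normed volume t • fderiv ℝ f (x - t)) (e j) := by
    unfold pd
    rw [(mol_hasFDerivAt φ hf x).fderiv]
  have h2 : Integrable (fun t => φ.normed volume t • fderiv ℝ f (x - t)) :=
    mol_integrable φ (g := fun t => fderiv ℝ f (x - t))
      (hc.comp (continuous_const.sub continuous_id))
  rw [h1, ContinuousLinearMap.integral_apply h2]
  rfl

theorem contDiff_pd {m : ℕ} {f : E m → ℝ} (hf : ContDiff ℝ ∞ f) (j : Fin m) :
    ContDiff ℝ ∞ (pd j f) := by
  have h1 : ContDiff ℝ ∞ (fderiv ℝ f) := hf.fderiv_right (by simp)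
  exact h1.clm_apply contDiff_const

theorem hess_mol {m : ℕ} (φ : ContDiffBump (0 : E m)) {f : E m → ℝ} (hf : ContDiff ℝ ∞ f)
    (x : E m) (i j : Fin m) :
    hess (mol φ f) x i j = ∫ t, φ.normed volume t * hess f (x - t) i j := by
  have h1 : hess (mol φ f) x i j = pd i (pd j (mol φ f)) x := rfl
  rw [h1, pd_mol φ hf j, pd_mol φ (contDiff_pd hf j) i]
  rfl

theorem mMOB : mMOB_stmt := by
  intro m φ f hf x Q hQ hcQ h
  let G : E m → Fin m → Fin m → ℝ := fun t i j => hess f (x - t) i j
  let Q' : Set (Fin m → Fin m → ℝ) := Q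
  have hQ' : IsClosed Q' := hQ
  have hcQ' : Convex ℝ Q' := hcQ
  have hG : Continuous G := by
    refine continuous_pi fun i => continuous_pi fun j => ?_
    have h1 : Continuous (pd i (pd j f)) := (contDiff_pd (contDiff_pd hf j) i).continuous
    exact h1.comp (continuous_const.sub continuous_id)
  let w : E m → NNReal := fun t => Real.toNNReal (φ.normed volume t)
  have hw : Measurable w := φ.continuous_normed.measurable.real_toNNReal
  have hwv : ∀ t, ((w t : NNReal) : ℝ) = φ.normed volume t := fun t =>
    Real.coe_toNNReal _ (φ.nonneg_normed t)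
  let μ : Measure (E m) := volume.withDensity (fun t => ((w t : NNReal) : ENNReal))
  have hμ : IsProbabilityMeasure μ := by
    refine ⟨?_⟩
    have h1 : μ univ = ∫⁻ t, ((w t : NNReal) : ENNReal) := by
      rw [withDensity_apply _ MeasurableSet.univ, Measure.restrict_univ]
    rw [h1]
    have h2 : ∫⁻ t, ((w t : NNReal) : ENNReal) = ENNReal.ofReal (∫ t, φ.normed volume t) := by
      rw [ofReal_integral_eq_lintegral_ofReal]
      · rfl
      · have h3 := mol_integrable φ (g := fun _ => (1 : ℝ)) continuous_const
        simpa using h3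
      · exact Filter.Eventually.of_forall fun t => φ.nonneg_normed t
    rw [h2, ContDiffBump.integral_normed, ENNReal.ofReal_one]
  have hi : Integrable G μ := by
    refine (integrable_withDensity_iff_integrable_smul hw).2 ?_
    have h1 := mol_integrable φ hG
    refine h1.congr (Filter.Eventually.of_forall fun t => ?_)
    show φ.normed volume t • G t = w t • G t
    rw [← hwv t]
    rfl
  have hae : ∀ᵐ t ∂μ, G t ∈ Q' := by
    refine (ae_withDensity_iff hw.coe_nnreal_ennreal).2 (Filter.Eventually.of_forall fun t ht => ?_)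
    have h1 : ‖t‖ ≤ φ.rOut := by
      by_contra hcon
      apply ht
      have h2 : w t = 0 := by
        show Real.toNNReal (φ.normed volume t) = 0
        rw [normed_zero_of φ hcon, Real.toNNReal_zero]
      rw [h2]
      rfl
    have h2 : ‖x - t - x‖ ≤ φ.rOut := by
      have h3 : x - t - x = -t := by abel
      rw [h3, norm_neg]
      exact h1
    exact h (x - t) h2
  have hmem : (∫ t, G t ∂μ) ∈ Q' := Convex.integral_mem hcQ' hQ' hae hi
  have heq : (∫ t, G t ∂μ) = fun i j => hess (mol φ f) x i j := by
    funext i j
    rw [hess_mol φ hf x i j]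
    have h1 := ((ContinuousLinearMap.proj (R := ℝ) (φ := fun _ : Fin m => ℝ) j).comp
      (ContinuousLinearMap.proj (R := ℝ) (φ := fun _ : Fin m => Fin m → ℝ) i)).integral_comp_comm hi
    have h2 : (∫ t, G t ∂μ) i j = ∫ t, G t i j ∂μ := h1.symm
    rw [h2]
    have h3 := integral_withDensity_eq_integral_smul (μ := (volume : Measure (E m))) hw
      (fun t => G t i j)
    refine h3.trans (integral_congr_ae (Filter.Eventually.of_forall fun t => ?_))
    show w t • G t i j = φ.normed volume t * hess f (x - t) i j
    rw [← hwv t]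
    rfl
  rw [heq] at hmem
  exact hmem

end Pool.Agent.helper21.SN
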