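import Pool.Agent.helper40.SN.SpecD

/-!
# Project sn (MP_d2d7b9), row dMNO: monotonicity of the masses
-/

set_option autoImplicit false

open scoped Pointwise ContDiff
open MeasureTheory Set Filter Topology

set_option linter.unusedVariables false

namespace Pool.Agent.helper40.SN

open Pool.Agent.helper83.SC Pool.Agent.helper69.SN

theorem dMNO_aux {m : ℕ} (f : E m → ℝ) (hf : Continuous f)
    (h0 : ∀ x, ‖x‖ ≤ 1 → 0 ≤ f x) (Z Z' : Set (E m)) (hZ : Z ⊆ Z')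
    (hZ' : Z' ⊆ Metric.closedBall 0 1) (hm : MeasurableSet Z) (hm' : MeasurableSet Z') :
    ∫ x in Z, f x ≤ ∫ x in Z', f x ∧ 0 ≤ ∫ x in Z, f x ∧ IntegrableOn f Z' := by
  have h1 : ∀ x ∈ Z', 0 ≤ f x := fun x hx => h0 x (by simpa using hZ' hx)
  have h2 : IntegrableOn f Z' :=
    (hf.continuousOn.integrableOn_compact (isCompact_closedBall (0 : E m) 1)).mono_set hZ'
  refine ⟨?_, setIntegral_nonneg hm fun x hx => h1 x (hZ hx), h2⟩
  exact setIntegral_mono_set h2 ((ae_restrict_iff' hm').2 (Filter.Eventually.of_forall h1))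
    (LE.le.eventuallyLE hZ)

theorem dMNO (hDNN : aDNN_stmt) (hDER : aDER_stmt) (hCNT : Pool.Agent.helper28.SN.cCNT_stmt)
    (hpsd : hess_psd_stmt) : dMNO_stmt := by
  intro m n T K j a Y Z Z' hK ha hY hZ hZ' hm hm'
  have hlam : ∀ i, 0 ≤ wt T K ∅ 0 i := by
    intro i
    unfold wt
    split_ifs
    · exact hK
    · exact le_rfl
    · exact le_rfl
  have hB : ∀ x, Psd (hs a (wt T K ∅ 0) x) := fun x i =>
    (hpsd (ha i).1 (ha i).2 x).smul (hlam i)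
  have hd : ∀ x, ‖x‖ ≤ 1 → ∀ r, 0 ≤ dPh (hs a (wt T K ∅ 0) x) r (hess (a j) x) (hess Y x) :=
    fun x hx => (hDNN _ (hB x) _ _ (hpsd (ha j).1 (ha j).2 x) (hY.2 x hx)).1
  have hc : ∀ r, Continuous fun x => dPh (hs a (wt T K ∅ 0) x) r (hess (a j) x) (hess Y x) :=
    fun r => hCNT a (wt T K ∅ 0) (a j) Y r (fun i => (ha i).1) (ha j).1 hY.1
  have he : (fun x => dPh (hs a (wt T K ∅ 0) x) 0 (hess (a j) x) (hess Y x)) =
      fun x => Ph (hs a (wt T K ∅ 0) x) (hess Y x) := by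
    funext x
    exact (hDER (hs a (wt T K ∅ 0) x) (hess (a j) x) (hess Y x) 0 0).2
  have k0 := dMNO_aux _ (hc 0) (fun x hx => hd x hx 0) Z Z' hZ hZ' hm hm'
  have k2 := dMNO_aux _ (hc 2) (fun x hx => hd x hx 2) Z Z' hZ hZ' hm hm'
  rw [he] at k0
  exact ⟨k0.1, k2.1, k0.2.1, k2.2.1, k0.2.2, k2.2.2⟩

end Pool.Agent.helper40.SN
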